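import Pool.Agent.Helper70.EH.Goals2

/-! Packet EH-TW (MP_20ee5e_ag): two variables, Chebyshev's sum inequality with strictness. -/

namespace Pool.Agent.Helper42.EH.TW

open Finset Pool.Agent.Helper70.EH

lemma ph_pos (j : ℕ) : 0 < ph j := inv_pos.2 (by exact_mod_cast Nat.factorial_pos _)

lemma ph_succ (j : ℕ) : ph j = ((j : ℝ) + 2) * ph (j + 1) := by
  unfold ph
  rw [Nat.factorial_succ (j + 1)]
  have h1 : (((j + 1).factorial : ℕ) : ℝ) ≠ 0 := by exact_mod_cast Nat.factorial_ne_zero _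
  have h2 : ((j : ℝ) + 2) ≠ 0 := by positivity
  push_cast
  field_simp
  ring

noncomputable def u (t i : ℕ) : ℝ := ph i * ph (t - i)

noncomputable def v (x y : ℝ) (t i : ℕ) : ℝ := x ^ i * y ^ (t - i) + x ^ (t - i) * y ^ i

lemma u_refl {t i : ℕ} (h : i ≤ t) : u t (t - i) = u t i := by
  unfold u
  rw [Nat.sub_sub_self h, mul_comm]

lemma v_refl {x y : ℝ} {t i : ℕ} (h : i ≤ t) : v x y t (t - i) = v x y t i := by
  unfold v
  rw [Nat.sub_sub_self h, add_comm]

lemma u_step {t b : ℕ} (h : 2 * (b + 1) ≤ t) : u t b ≤ u t (b + 1) := by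
  unfold u
  obtain ⟨s, hs⟩ : ∃ s, s = t - (b + 1) := ⟨_, rfl⟩
  have h1 : t - b = s + 1 := by omega
  rw [← hs, h1, ph_succ b, ph_succ s]
  have h2 : (b : ℝ) ≤ s := by
    have : b ≤ s := by omega
    exact_mod_cast this
  have h3 := ph_pos (b + 1)
  have h4 := ph_pos (s + 1)
  have h5 : 0 < ph (b + 1) * ph (s + 1) := mul_pos h3 h4
  nlinarith [mul_le_mul_of_nonneg_right h2 h5.le]

lemma pow_sub_mul {x y : ℝ} (hx : 0 < x) (hy : 0 < y) (k : ℕ) : 0 ≤ (x ^ k - y ^ k) * (x - y) := by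
  rcases le_total x y with h | h
  · exact mul_nonneg_of_nonpos_of_nonpos (sub_nonpos.2 (pow_le_pow_left₀ hx.le h k)) (sub_nonpos.2 h)
  · exact mul_nonneg (sub_nonneg.2 (pow_le_pow_left₀ hy.le h k)) (sub_nonneg.2 h)

lemma pow_sub_mul_pos {x y : ℝ} (hx : 0 < x) (hy : 0 < y) (hxy : x ≠ y) {k : ℕ} (hk : k ≠ 0) :
    0 < (x ^ k - y ^ k) * (x - y) := by
  rcases lt_or_gt_of_ne hxy with h | h
  · exact mul_pos_of_neg_of_neg (sub_neg.2 (pow_lt_pow_left₀ h hx.le hk)) (sub_neg.2 h)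
  · exact mul_pos (sub_pos.2 (pow_lt_pow_left₀ h hy.le hk)) (sub_pos.2 h)

lemma v_sub {x y : ℝ} {t b : ℕ} (h : 2 * (b + 1) ≤ t) :
    v x y t b - v x y t (b + 1) =
      x ^ b * y ^ b * ((x ^ (t - 2 * b - 1) - y ^ (t - 2 * b - 1)) * (x - y)) := by
  unfold v
  obtain ⟨m, hm⟩ : ∃ m, t = 2 * b + 2 + m := ⟨t - (2 * b + 2), by omega⟩
  have h1 : t - b = b + m + 2 := by omega
  have h2 : t - (b + 1) = b + m + 1 := by omega
  have h3 : t - 2 * b - 1 = m + 1 := by omega
  rw [h1, h2, h3]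
  ring

lemma v_step {x y : ℝ} (hx : 0 < x) (hy : 0 < y) {t b : ℕ} (h : 2 * (b + 1) ≤ t) :
    v x y t (b + 1) ≤ v x y t b := by
  have h1 := v_sub (x := x) (y := y) h
  have h2 : 0 ≤ x ^ b * y ^ b * ((x ^ (t - 2 * b - 1) - y ^ (t - 2 * b - 1)) * (x - y)) :=
    mul_nonneg (by positivity) (pow_sub_mul hx hy _)
  linarith

lemma mono {x y : ℝ} (hx : 0 < x) (hy : 0 < y) {t b : ℕ} : ∀ a, b ≤ a → 2 * a ≤ t →
    u t b ≤ u t a ∧ v x y t a ≤ v x y t b := by
  intro a hab
  induction a, hab using Nat.le_induction with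
  | base => exact fun _ => ⟨le_rfl, le_rfl⟩
  | succ n hn ih =>
    intro ht
    obtain ⟨h1, h2⟩ := ih (by omega)
    exact ⟨h1.trans (u_step ht), (v_step hx hy ht).trans h2⟩

lemma pair {x y : ℝ} (hx : 0 < x) (hy : 0 < y) {t p q : ℕ} (hp : p ≤ t) (hq : q ≤ t) :
    (u t p - u t q) * (v x y t p - v x y t q) ≤ 0 := by
  have key : ∀ p, p ≤ t → ∃ p', 2 * p' ≤ t ∧ u t p = u t p' ∧ v x y t p = v x y t p' := by
    intro p hp
    by_cases h : 2 * p ≤ t
    · exact ⟨p, h, rfl, rfl⟩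
    · exact ⟨t - p, by omega, (u_refl hp).symm, (v_refl hp).symm⟩
  obtain ⟨p', hp', e1, e2⟩ := key p hp
  obtain ⟨q', hq', e3, e4⟩ := key q hq
  rw [e1, e2, e3, e4]
  rcases le_total p' q' with h | h
  · obtain ⟨h1, h2⟩ := mono hx hy q' h hq'
    exact mul_nonpos_of_nonpos_of_nonneg (by linarith) (by linarith)
  · obtain ⟨h1, h2⟩ := mono hx hy p' h hp'
    exact mul_nonpos_of_nonneg_of_nonpos (by linarith) (by linarith)

lemma cheb (R : Finset ℕ) (u v : ℕ → ℝ) :
    ∑ p ∈ R, ∑ q ∈ R, (u p - u q) * (v p - v q) =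
      2 * ((R.card : ℝ) * ∑ p ∈ R, u p * v p - (∑ p ∈ R, u p) * ∑ p ∈ R, v p) := by
  have h : ∀ p q, (u p - u q) * (v p - v q) = u p * v p - u p * v q - (v p * u q - u q * v q) :=
    fun p q => by ring
  have e1 : ∑ p ∈ R, ∑ _q ∈ R, u p * v p = (R.card : ℝ) * ∑ p ∈ R, u p * v p := by
    rw [mul_sum]
    exact sum_congr rfl fun p _ => by rw [sum_const, nsmul_eq_mul]
  have e2 : ∑ p ∈ R, ∑ q ∈ R, u p * v q = (∑ p ∈ R, u p) * ∑ p ∈ R, v p :=
    (sum_mul_sum _ _ _ _).symm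
  have e3 : ∑ p ∈ R, ∑ q ∈ R, v p * u q = (∑ p ∈ R, v p) * ∑ p ∈ R, u p :=
    (sum_mul_sum _ _ _ _).symm
  have e4 : ∑ _p ∈ R, ∑ q ∈ R, u q * v q = (R.card : ℝ) * ∑ p ∈ R, u p * v p := by
    rw [sum_const, nsmul_eq_mul]
  simp only [h, sum_sub_distrib]
  rw [e1, e2, e3, e4]
  ring

theorem t : G_TW := by
  intro t x y hx hy
  have r1 : ∀ f : ℕ × ℕ → ℝ, ∑ p ∈ HasAntidiagonal.antidiagonal t, f p =
      ∑ k ∈ range (t + 1), f (k, t - k) := fun f =>
    Finset.Nat.sum_antidiagonal_eq_sum_range_succ_mk f t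
  rw [r1, r1, r1]
  have hA : 2 * ∑ k ∈ range (t + 1), ph k * ph (t - k) * (x ^ k * y ^ (t - k)) =
      ∑ k ∈ range (t + 1), u t k * v x y t k := by
    have h1 : ∑ k ∈ range (t + 1), ph k * ph (t - k) * (x ^ k * y ^ (t - k)) =
        ∑ k ∈ range (t + 1), ph k * ph (t - k) * (x ^ (t - k) * y ^ k) := by
      rw [← Finset.sum_flip]
      refine Finset.sum_congr rfl fun k hk => ?_
      have : k ≤ t := by
        have := Finset.mem_range.1 hk
        omega
      rw [Nat.sub_sub_self this]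
      ring
    rw [two_mul]
    nth_rewrite 2 [h1]
    rw [← sum_add_distrib]
    refine Finset.sum_congr rfl fun k _ => ?_
    unfold u v
    ring
  have hB : 2 * ∑ k ∈ range (t + 1), x ^ k * y ^ (t - k) = ∑ k ∈ range (t + 1), v x y t k := by
    have h1 : ∑ k ∈ range (t + 1), x ^ k * y ^ (t - k) =
        ∑ k ∈ range (t + 1), x ^ (t - k) * y ^ k := by
      rw [← Finset.sum_flip]
      refine Finset.sum_congr rfl fun k hk => ?_
      have : k ≤ t := by
        have := Finset.mem_range.1 hk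
        omega
      rw [Nat.sub_sub_self this]
    rw [two_mul]
    nth_rewrite 2 [h1]
    rw [← sum_add_distrib]
    rfl
  have hC : ∑ k ∈ range (t + 1), ph k * ph (t - k) = ∑ k ∈ range (t + 1), u t k := rfl
  have hch := cheb (range (t + 1)) (u t) (v x y t)
  rw [card_range] at hch
  push_cast at hch
  have hle : ∀ p ∈ range (t + 1), ∀ q ∈ range (t + 1),
      (u t p - u t q) * (v x y t p - v x y t q) ≤ 0 := fun p hp q hq =>
    pair hx hy (by have := mem_range.1 hp; omega) (by have := mem_range.1 hq; omega)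
  constructor
  · have h0 : ∑ p ∈ range (t + 1), ∑ q ∈ range (t + 1),
        (u t p - u t q) * (v x y t p - v x y t q) ≤ 0 :=
      sum_nonpos fun p hp => sum_nonpos fun q hq => hle p hp q hq
    dsimp only
    rw [hC]
    rw [← hA, ← hB] at hch
    nlinarith [h0, hch]
  · intro ht hxy
    have hu : u t 0 < u t 1 := by
      unfold u
      obtain ⟨s, hs⟩ : ∃ s, t = s + 2 := ⟨t - 2, by omega⟩
      subst hs
      have e1 : s + 2 - 0 = (s + 1) + 1 := by omega
      have e2 : s + 2 - 1 = s + 1 := by omega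
      rw [e1, e2, ph_succ 0, ph_succ (s + 1)]
      have h3 := ph_pos (0 + 1)
      have h4 := ph_pos (s + 1 + 1)
      have h5 : 0 < ph (0 + 1) * ph (s + 1 + 1) := mul_pos h3 h4
      push_cast
      have h6 : (0 : ℝ) ≤ s := Nat.cast_nonneg _
      nlinarith [mul_nonneg h6 h5.le]
    have hv : v x y t 1 < v x y t 0 := by
      have h1 := v_sub (x := x) (y := y) (t := t) (b := 0) (by omega)
      have h2 : 0 < x ^ 0 * y ^ 0 * ((x ^ (t - 2 * 0 - 1) - y ^ (t - 2 * 0 - 1)) * (x - y)) :=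
        mul_pos (by positivity) (pow_sub_mul_pos hx hy hxy (by omega))
      simp only [zero_add] at h1
      linarith
    have h0 : ∑ p ∈ range (t + 1), ∑ q ∈ range (t + 1),
        (u t p - u t q) * (v x y t p - v x y t q) < 0 := by
      have m0 : 0 ∈ range (t + 1) := mem_range.2 (by omega)
      have m1 : 1 ∈ range (t + 1) := mem_range.2 (by omega)
      have hin : ∑ q ∈ range (t + 1), (u t 0 - u t q) * (v x y t 0 - v x y t q) < 0 := by
        have := sum_lt_sum (f := fun q => (u t 0 - u t q) * (v x y t 0 - v x y t q))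
          (g := fun _ => (0 : ℝ)) (fun q hq => hle 0 m0 q hq)
          ⟨1, m1, mul_neg_of_neg_of_pos (by linarith) (by linarith)⟩
        simpa using this
      have := sum_lt_sum
        (f := fun p => ∑ q ∈ range (t + 1), (u t p - u t q) * (v x y t p - v x y t q))
        (g := fun _ => (0 : ℝ)) (fun p hp => sum_nonpos fun q hq => hle p hp q hq) ⟨0, m0, hin⟩
      simpa using this
    dsimp only
    rw [hC]
    rw [← hA, ← hB] at hch
    nlinarith [h0, hch]

end Pool.Agent.Helper42.EH.TW
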